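import Pool.Agent.H97.PR.Targets

set_option autoImplicit false

namespace Pool.Agent.H97.PR

open Finset

/-- the directions of an affine set at a point -/
def dirs {n : ℕ} (a : E n) (A : Set (E n)) (ha : a ∈ A) (hA : IsAf A) : Submodule (ZMod 2) (E n) where
  carrier := {w | a + w ∈ A}
  zero_mem' := by
    show a + 0 ∈ A
    rw [add_zero]
    exact ha
  add_mem' := fun {v w} hv hw => by
    show a + (v + w) ∈ A
    have h := hA _ hv _ ha _ hw
    have e : a + v + a + (a + w) = a + (v + w) := by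
      funext i
      simp only [Pi.add_apply]
      generalize a i = p
      generalize v i = q
      generalize w i = r
      revert p q r
      decide
    rw [e] at h
    exact h
  smul_mem' := fun c x hx => by
    show a + c • x ∈ A
    have hc : c = 0 ∨ c = 1 := by
      revert c
      decide
    rcases hc with rfl | rfl
    · rw [zero_smul, add_zero]
      exact ha
    · rw [one_smul]
      exact hx

theorem pf_MNM (hRKB : T_RKB) (hRKC : T_RKC) : T_MNM := by
  intro n N k m blk γ g F D G hAdv a V Cl A hAf hSta hVA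
  have haA : a ∈ A := by
    apply hVA
    show a - a ∈ V
    rw [sub_self]
    exact V.zero_mem
  obtain ⟨W, hW⟩ : ∃ W : Submodule (ZMod 2) (E n), W = dirs a A haA hAf := ⟨_, rfl⟩
  have hWm : ∀ w, w ∈ W ↔ a + w ∈ A := by
    intro w
    rw [hW]
    exact Iff.rfl
  have hAW : A = pc a W := by
    ext x
    show x ∈ A ↔ x - a ∈ W
    rw [hWm]
    rw [add_sub_cancel]
  have hVW : V ≤ W := by
    intro v hv
    rw [hWm]
    apply hVA
    show a + v - a ∈ V
    rw [add_sub_cancel_left]
    exact hv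
  obtain ⟨C0, -, hmin⟩ := Finset.exists_min_image (univ : Finset (Finset (Fin N)))
    (fun J => ((rk blk W J : ℤ) - γ * J.card) * (N + 1) + J.card) ⟨∅, mem_univ _⟩
  have hcard : ∀ J : Finset (Fin N), (J.card : ℤ) ≤ N := by
    intro J
    have := Finset.card_le_univ J
    rw [Fintype.card_fin] at this
    exact_mod_cast this
  have hN : (0 : ℤ) < N + 1 := by positivity
  have ha1 : ∀ J : Finset (Fin N), (rk blk W C0 : ℤ) - γ * C0.card ≤ (rk blk W J : ℤ) - γ * J.card := by
    intro J
    by_contra hlt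
    push Not at hlt
    have h1 := hmin J (mem_univ _)
    have h2 : (((rk blk W J : ℤ) - γ * J.card) + 1) * (N + 1) ≤ ((rk blk W C0 : ℤ) - γ * C0.card) * (N + 1) :=
      mul_le_mul_of_nonneg_right (by linarith) hN.le
    have h3 := hcard J
    have h4 : (0 : ℤ) ≤ (C0.card : ℤ) := Int.natCast_nonneg _
    nlinarith
  have ha2 : ∀ J : Finset (Fin N), J.card < C0.card →
      (rk blk W C0 : ℤ) - γ * C0.card < (rk blk W J : ℤ) - γ * J.card := by
    intro J hJ
    by_contra hle
    push Not at hle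
    have h1 := hmin J (mem_univ _)
    have h2 : ((rk blk W J : ℤ) - γ * J.card) * (N + 1) ≤ ((rk blk W C0 : ℤ) - γ * C0.card) * (N + 1) :=
      mul_le_mul_of_nonneg_right hle hN.le
    have h3 : (J.card : ℤ) < C0.card := by exact_mod_cast hJ
    linarith
  have hsub : C0 ⊆ Cl := by
    by_contra hns
    obtain ⟨x, hx, hxn⟩ := Finset.not_subset.mp hns
    have hlt : (C0 ∩ Cl).card < C0.card := by
      apply Finset.card_lt_card
      refine ⟨Finset.inter_subset_left, ?_⟩
      intro h
      exact hxn (Finset.mem_inter.mp (h hx)).2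
    have hf := ha2 _ hlt
    have h6 := (hRKB n N blk W W (C0 \ Cl) (C0 ∩ Cl)).2.2.2.2.2.1
    have hun : C0 ∩ Cl ∪ C0 \ Cl = C0 := by
      ext y
      simp only [Finset.mem_union, Finset.mem_inter, Finset.mem_sdiff]
      tauto
    rw [hun] at h6
    have hle : V ≤ W ⊓ zr blk (C0 ∩ Cl) := by
      refine le_inf hVW (le_trans hSta.zr ?_)
      intro x hx i hi
      exact hx i (Finset.mem_inter.mp hi).2
    have h4 := (hRKB n N blk V (W ⊓ zr blk (C0 ∩ Cl)) (C0 \ Cl) ∅).2.2.2.1 hle
    have h5 := hSta.rk (C0 \ Cl) Finset.sdiff_disjoint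
    have hc : (C0 ∩ Cl).card + (C0 \ Cl).card = C0.card := by
      exact Finset.card_inter_add_card_sdiff C0 Cl
    have hc' : (γ : ℤ) * C0.card = γ * (C0 ∩ Cl).card + γ * (C0 \ Cl).card := by
      rw [← hc]
      push_cast
      ring
    have h6' : (rk blk (W ⊓ zr blk (C0 ∩ Cl)) (C0 \ Cl) : ℤ) + rk blk W (C0 ∩ Cl) = rk blk W C0 := by
      exact_mod_cast h6
    have h4' : (rk blk V (C0 \ Cl) : ℤ) ≤ rk blk (W ⊓ zr blk (C0 ∩ Cl)) (C0 \ Cl) := by
      exact_mod_cast h4
    have h5' : (γ : ℤ) * (C0 \ Cl).card ≤ rk blk V (C0 \ Cl) := by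
      exact_mod_cast h5
    linarith
  refine ⟨W ⊓ zr blk C0, C0, ⟨inf_le_right, ?_, hAdv.res Cl C0 _ hsub hSta.good⟩, ?_, ?_⟩
  · intro J hJ
    have h6 := (hRKB n N blk W W J C0).2.2.2.2.2.1
    have hf := ha1 (C0 ∪ J)
    have hc : (C0 ∪ J).card = C0.card + J.card := Finset.card_union_of_disjoint hJ.symm
    have h6' : (rk blk (W ⊓ zr blk C0) J : ℤ) + rk blk W C0 = rk blk W (C0 ∪ J) := by
      exact_mod_cast h6
    rw [hc] at hf
    push_cast at hf
    have : (γ : ℤ) * J.card ≤ rk blk (W ⊓ zr blk C0) J := by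
      linarith
    exact_mod_cast this
  · rw [hAW]
    intro x hx
    exact (Submodule.mem_inf.mp hx).1
  · have h2 : cnt (fun x => x ∈ A) = 2 ^ dm W := by
      rw [hAW]
      exact (hRKC n N blk W ∅).2.1 a
    rw [h2]
    apply Nat.pow_le_pow_right (by norm_num)
    have h1 := (hRKB n N blk W W C0 ∅).1
    have h0 := (hRKB n N blk W W ∅ ∅).2.1
    have hf := ha1 ∅
    rw [h0] at hf
    simp only [Finset.card_empty] at hf
    push_cast at hf
    have : (rk blk W C0 : ℤ) ≤ γ * C0.card := by linarith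
    have h' : rk blk W C0 ≤ γ * C0.card := by exact_mod_cast this
    omega

end Pool.Agent.H97.PR
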